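import Mathlib

/-!
# MP_f0eba7_co: complete multipartite graphs with one big even part

Question Q1 has a negative answer: the proportional choice number of `K_{2,6}` is not
`⌈2/2⌉ + ⌈6/2⌉ = 4`, and the same happens for infinitely many complete multipartite graphs.
-/

namespace Pool.Agent.Results.MP_f0eba7_co.BigEvenPart

open Finset

/-- The complete multipartite graph with parts of sizes `n i`. -/
abbrev K {t : ℕ} (n : Fin t → ℕ) : SimpleGraph (Σ i, Fin (n i)) :=
  SimpleGraph.completeMultipartiteGraph (fun i => Fin (n i))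

/-- The multiplicity of the colour `c`: the number of the lists containing it. -/
def mult {V : Type} [Fintype V] (L : V → Finset ℕ) (c : ℕ) : ℕ :=
  (univ.filter (fun v => c ∈ L v)).card

/-- `f` is a proportional `L`-colouring (of a `k`-assignment `L`): a proper `L`-colouring such that
every colour `c` of the palette is used `⌊η(c)/k⌋` or `⌈η(c)/k⌉` times. -/
def IsProportional {V : Type} [Fintype V] (G : SimpleGraph V) (k : ℕ) (L : V → Finset ℕ)
    (f : V → ℕ) : Prop :=
  (∀ v, f v ∈ L v) ∧ (∀ u v, G.Adj u v → f u ≠ f v) ∧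
    ∀ c, (∃ v, c ∈ L v) →
      ((univ.filter (fun v => f v = c)).card = ⌊(mult L c : ℚ) / k⌋₊ ∨
        (univ.filter (fun v => f v = c)).card = ⌈(mult L c : ℚ) / k⌉₊)

/-- `G` is proportionally `k`-choosable. -/
def ProportionallyChoosable {V : Type} [Fintype V] (G : SimpleGraph V) (k : ℕ) : Prop :=
  ∀ L : V → Finset ℕ, (∀ v, (L v).card = k) → ∃ f, IsProportional G k L f

/-- The proportional choice number. -/
noncomputable def chiPc {V : Type} [Fintype V] (G : SimpleGraph V) : ℕ :=
  sInf {k | ProportionallyChoosable G k}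

/-- Condition (H): all `n i` are even and the largest is at most `s = ∑ n i / 2`. -/
def H {t : ℕ} (n : Fin t → ℕ) : Prop :=
  (∀ i, Even (n i)) ∧ ∀ i, n i ≤ (∑ j, n j) / 2

theorem card_fin_filter (N : ℕ) (p : ℕ → Prop) [DecidablePred p] :
    (univ.filter (fun x : Fin N => p x.val)).card = ((range N).filter p).card := by
  have : (range N).filter p =
      (univ.filter (fun x : Fin N => p x.val)).map Fin.valEmbedding := by
    ext y
    simp only [mem_filter, mem_range, mem_map, mem_univ, true_and, Fin.valEmbedding_apply]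
    constructor
    · rintro ⟨h1, h2⟩
      exact ⟨⟨y, h1⟩, h2, rfl⟩
    · rintro ⟨x, hx, rfl⟩
      exact ⟨x.2, hx⟩
  rw [this, card_map]

/-- number of the elements of `Fin N` in a residue class -/
theorem card_res (N b g : ℕ) (hb : 0 < b) (hN : N = b * g) (r : ℕ) :
    (univ.filter (fun x : Fin N => x.val ≡ r [MOD b])).card = g := by
  rw [card_fin_filter N (fun x => x ≡ r [MOD b]), ← Nat.count_eq_card_filter_range,
    Nat.count_modEq_card N hb r, hN]
  rw [Nat.mul_div_cancel_left g hb, Nat.mul_mod_right]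
  simp

/-- the block of `t0` consecutive residues modulo `b`, starting with `x` -/
def blk (b t0 x : ℕ) : Finset ℕ := (range t0).image (fun y => (x + y) % b)

theorem card_blk (b t0 x : ℕ) (ht : t0 ≤ b) : (blk b t0 x).card = t0 := by
  rw [blk, card_image_of_injOn, card_range]
  intro y hy z hz hyz
  simp only [coe_range, Set.mem_Iio] at hy hz
  have h1 : x + y ≡ x + z [MOD b] := hyz
  have h2 : y ≡ z [MOD b] := Nat.ModEq.add_left_cancel' x h1
  exact Nat.ModEq.eq_of_lt_of_lt h2 (by omega) (by omega)

theorem blk_lt (b t0 x c : ℕ) (hb : 0 < b) (h : c ∈ blk b t0 x) : c < b := by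
  rw [blk, mem_image] at h
  obtain ⟨y, -, rfl⟩ := h
  exact Nat.mod_lt _ hb

/-- every residue is in the same number of blocks -/
theorem card_blocks (N b g t0 c : ℕ) (hb : 0 < b) (hN : N = b * g) (ht : t0 ≤ b) (hc : c < b) :
    (univ.filter (fun x : Fin N => c ∈ blk b t0 x.val)).card = g * t0 := by
  have h1 : univ.filter (fun x : Fin N => c ∈ blk b t0 x.val) =
      (range t0).biUnion (fun y => univ.filter (fun x : Fin N => x.val ≡ c + b - y [MOD b])) := by
    ext x
    simp only [mem_filter, mem_univ, true_and, mem_biUnion, mem_range, blk, mem_image]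
    constructor
    · rintro ⟨y, hy, hxy⟩
      refine ⟨y, hy, ?_⟩
      have h2 : x.val + y ≡ c + b [MOD b] := by
        show (x.val + y) % b = (c + b) % b
        rw [hxy, Nat.add_mod_right, Nat.mod_eq_of_lt hc]
      have h3 : (c + b - y) + y = c + b := by omega
      rw [← h3] at h2
      exact Nat.ModEq.add_right_cancel' y h2
    · rintro ⟨y, hy, hxy⟩
      refine ⟨y, hy, ?_⟩
      have h2 : x.val + y ≡ (c + b - y) + y [MOD b] := Nat.ModEq.add_right y hxy
      have h3 : (c + b - y) + y = c + b := by omega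
      rw [h3] at h2
      have h4 : (x.val + y) % b = (c + b) % b := h2
      rw [h4, Nat.add_mod_right, Nat.mod_eq_of_lt hc]
  rw [h1, card_biUnion]
  · rw [sum_congr rfl (fun y _ => card_res N b g hb hN (c + b - y))]
    simp [mul_comm]
  · intro y hy z hz hyz
    rw [Function.onFun, Finset.disjoint_left]
    intro x hx1 hx2
    simp only [mem_filter, mem_univ, true_and] at hx1 hx2
    apply hyz
    have hy' := mem_range.1 hy
    have hz' := mem_range.1 hz
    have h5 : c + b - y ≡ c + b - z [MOD b] := hx1.symm.trans hx2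
    have h6 : (c + b - y) + (y + z) ≡ (c + b - z) + (y + z) [MOD b] := Nat.ModEq.add_right _ h5
    have h7 : (c + b - y) + (y + z) = (c + b) + z := by omega
    have h8 : (c + b - z) + (y + z) = (c + b) + y := by omega
    rw [h7, h8] at h6
    have h9 := Nat.ModEq.add_left_cancel' _ h6
    exact (Nat.ModEq.eq_of_lt_of_lt h9 (by omega) (by omega)).symm

/-- **Main construction.** Let all `n i` be even, `s = ∑ n i / 2 > 0`, let `n j ≥ s` be the size of a
part and let `n j / gcd (n j, s)` be odd. Then the complete multipartite graph is not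
proportionally `s`-choosable. -/
theorem notChoosable {t : ℕ} (n : Fin t → ℕ) (heven : ∀ i, Even (n i)) (j : Fin t) (s : ℕ)
    (hs : ∑ i, n i = 2 * s) (hs0 : 0 < s) (hj : s ≤ n j)
    (hodd : Odd (n j / Nat.gcd (n j) s)) : ¬ ProportionallyChoosable (K n) s := by
  intro hch
  set g := Nat.gcd (n j) s with hg
  have hg0 : 0 < g := Nat.gcd_pos_of_pos_right _ hs0
  obtain ⟨b, hb⟩ : g ∣ n j := Nat.gcd_dvd_left _ _
  obtain ⟨t0, ht0⟩ : g ∣ s := Nat.gcd_dvd_right _ _
  have hbdef : n j / g = b := by rw [hb, Nat.mul_div_cancel_left _ hg0]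
  rw [hbdef] at hodd
  have htb : t0 ≤ b := by
    have : g * t0 ≤ g * b := by rw [← hb, ← ht0]; exact hj
    exact Nat.le_of_mul_le_mul_left this hg0
  have hb0 : 0 < b := hodd.pos
  have ht0s : t0 ≤ s := by rw [ht0]; exact Nat.le_mul_of_pos_left _ hg0
  have hNb : n j = b * g := by rw [hb, mul_comm]
  let L : (Σ i, Fin (n i)) → Finset ℕ := fun v =>
    if v.1 = j then Ico b (b + (s - t0)) ∪ blk b t0 v.2.val else Ico b (b + s)
  have hLcard : ∀ v, (L v).card = s := by
    intro v
    show (if v.1 = j then _ else _ : Finset ℕ).card = s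
    split_ifs with h
    · rw [card_union_of_disjoint, card_blk b t0 _ htb, Nat.card_Ico]
      · omega
      · rw [Finset.disjoint_left]
        intro c hc1 hc2
        have := blk_lt b t0 _ c hb0 hc2
        have := (mem_Ico.1 hc1).1
        omega
    · rw [Nat.card_Ico]
      omega
  have hcardV : Fintype.card (Σ i, Fin (n i)) = 2 * s := by
    rw [Fintype.card_sigma]
    simpa using hs
  -- multiplicities
  have hmA : ∀ c, b ≤ c → c < b + (s - t0) → mult L c = 2 * s := by
    intro c hc1 hc2
    unfold mult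
    rw [filter_true_of_mem, card_univ, hcardV]
    intro v _
    show c ∈ (if v.1 = j then _ else _ : Finset ℕ)
    split_ifs with h
    · exact mem_union_left _ (mem_Ico.2 ⟨hc1, hc2⟩)
    · exact mem_Ico.2 ⟨hc1, by omega⟩
  have hLB : ∀ c, c < b → ∀ v, c ∈ L v → v.1 = j := by
    intro c hc v hv
    by_contra h
    have hv' : c ∈ (if v.1 = j then _ else Ico b (b + s) : Finset ℕ) := hv
    rw [if_neg h] at hv'
    have := (mem_Ico.1 hv').1
    omega
  have hmB : ∀ c, c < b → mult L c = s := by
    intro c hc
    unfold mult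
    have h1 : univ.filter (fun v : (Σ i, Fin (n i)) => c ∈ L v) =
        (univ.filter (fun x : Fin (n j) => c ∈ blk b t0 x.val)).map
          ⟨fun x => (⟨j, x⟩ : Σ i, Fin (n i)), fun x y hxy => by simpa using hxy⟩ := by
      ext v
      simp only [mem_filter, mem_univ, true_and, mem_map]
      constructor
      · intro hv
        obtain ⟨i, x⟩ := v
        have hij : i = j := hLB c hc _ hv
        subst hij
        have hv' : c ∈ (if i = i then Ico b (b + (s - t0)) ∪ blk b t0 x.val
          else Ico b (b + s) : Finset ℕ) := hv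
        rw [if_pos rfl, mem_union] at hv'
        rcases hv' with h | h
        · have := (mem_Ico.1 h).1
          omega
        · exact ⟨x, h, rfl⟩
      · rintro ⟨x, hx, rfl⟩
        show c ∈ (if j = j then Ico b (b + (s - t0)) ∪ blk b t0 x.val
          else Ico b (b + s) : Finset ℕ)
        rw [if_pos rfl]
        exact mem_union_right _ hx
    rw [h1, card_map, card_blocks (n j) b g t0 c hb0 hNb htb hc, ht0]
  obtain ⟨f, hf1, hf2, hf3⟩ := hch L hLcard
  have hsQ : (s : ℚ) ≠ 0 := by exact_mod_cast hs0.ne'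
  -- colours of A are used twice
  have huA : ∀ c, b ≤ c → c < b + (s - t0) → (univ.filter (fun v => f v = c)).card = 2 := by
    intro c hc1 hc2
    have hex : ∃ v, c ∈ L v := by
      by_contra hno
      push Not at hno
      have h2 := hmA c hc1 hc2
      unfold mult at h2
      rw [filter_false_of_mem (fun v _ => hno v)] at h2
      simp at h2
      omega
    have h3 := hf3 c hex
    rw [hmA c hc1 hc2] at h3
    have h4 : ((2 * s : ℕ) : ℚ) / s = 2 := by push_cast; field_simp
    rw [h4] at h3
    simpa using h3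
  have huB : ∀ c, c < b → (univ.filter (fun v => f v = c)).card = 1 := by
    intro c hc
    have hex : ∃ v, c ∈ L v := by
      by_contra hno
      push Not at hno
      have h2 := hmB c hc
      unfold mult at h2
      rw [filter_false_of_mem (fun v _ => hno v)] at h2
      simp at h2
      omega
    have h3 := hf3 c hex
    rw [hmB c hc] at h3
    have h4 : (s : ℚ) / s = 1 := div_self hsQ
    rw [h4] at h3
    simpa using h3
  -- count the vertices of part j
  set Pj : Finset (Σ i, Fin (n i)) := univ.filter (fun v => v.1 = j) with hPj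
  have hPcard : Pj.card = n j := by
    have h1 : Pj = (univ : Finset (Fin (n j))).map
          ⟨fun x => (⟨j, x⟩ : Σ i, Fin (n i)), fun x y hxy => by simpa using hxy⟩ := by
      ext v
      simp only [hPj, mem_filter, mem_univ, true_and, mem_map]
      constructor
      · intro hv
        obtain ⟨i, x⟩ := v
        simp only at hv
        subst hv
        exact ⟨x, rfl⟩
      · rintro ⟨x, rfl⟩
        rfl
    rw [h1, card_map, card_univ, Fintype.card_fin]
  have hmaps : ∀ v ∈ Pj, f v ∈ range (b + (s - t0)) := by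
    intro v hv
    rw [hPj, mem_filter] at hv
    have h1 : f v ∈ (if v.1 = j then Ico b (b + (s - t0)) ∪ blk b t0 v.2.val
        else Ico b (b + s) : Finset ℕ) := hf1 v
    rw [if_pos hv.2, mem_union] at h1
    rw [mem_range]
    rcases h1 with h | h
    · exact (mem_Ico.1 h).2
    · have := blk_lt b t0 _ _ hb0 h
      omega
  have hsum := card_eq_sum_card_fiberwise hmaps
  rw [hPcard, sum_range_add] at hsum
  have hB : ∑ c ∈ range b, (Pj.filter (fun v => f v = c)).card = b := by
    rw [sum_congr rfl (g := fun _ => 1)]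
    · simp
    · intro c hc
      have hc' := mem_range.1 hc
      rw [← huB c hc']
      congr 1
      ext v
      simp only [hPj, mem_filter, mem_univ, true_and, and_iff_right_iff_imp]
      intro hv
      exact hLB c hc' v (hv ▸ hf1 v)
  have hA : Even (∑ c ∈ range (s - t0), (Pj.filter (fun v => f v = b + c)).card) := by
    apply Finset.even_sum
    intro c hc
    have hc' := mem_range.1 hc
    have h2 := huA (b + c) (by omega) (by omega)
    rcases Finset.eq_empty_or_nonempty (Pj.filter (fun v => f v = b + c)) with h | ⟨w, hw⟩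
    · rw [h]; simp
    · rw [hPj, filter_filter, mem_filter] at hw
      have h3 : Pj.filter (fun v => f v = b + c) = univ.filter (fun v => f v = b + c) := by
        ext v
        simp only [hPj, mem_filter, mem_univ, true_and, and_iff_right_iff_imp]
        intro hv
        by_contra hne
        apply hf2 v w
        · show v.1 ≠ w.1
          rw [hw.2.1]
          exact hne
        · rw [hv, hw.2.2]
      rw [h3, h2]
      decide
  rw [hB] at hsum
  have hodd2 : Odd (n j) := by
    rw [hsum]
    exact hodd.add_even hA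
  exact (Nat.not_even_iff_odd.2 hodd2) (heven j)

theorem chiPc_ne {V : Type} [Fintype V] (G : SimpleGraph V) (s : ℕ) (hs : 0 < s)
    (h : ¬ ProportionallyChoosable G s) : chiPc G ≠ s := by
  intro he
  have hne : {k | ProportionallyChoosable G k}.Nonempty := by
    apply Nat.nonempty_of_pos_sInf
    show 0 < chiPc G
    omega
  have hm := Nat.sInf_mem hne
  have : ProportionallyChoosable G (chiPc G) := hm
  rw [he] at this
  exact h this

/-- The general statement for one big part. -/
theorem general {t : ℕ} (n : Fin t → ℕ) (heven : ∀ i, Even (n i)) (j : Fin t)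
    (hj : (∑ i, n i) / 2 < n j) (hpos : ∀ i, 0 < n i)
    (hodd : Odd (n j / Nat.gcd (n j) ((∑ i, n i) / 2))) :
    ¬ H n ∧ ¬ ProportionallyChoosable (K n) (∑ i, (n i + 1) / 2) ∧
      chiPc (K n) ≠ ∑ i, (n i + 1) / 2 := by
  have hsum : ∑ i, n i = 2 * ∑ i, (n i + 1) / 2 := by
    rw [mul_sum]
    apply sum_congr rfl
    intro i _
    obtain ⟨r, hr⟩ := heven i
    omega
  have hs : (∑ i, n i) / 2 = ∑ i, (n i + 1) / 2 := by
    rw [hsum]
    simp
  have hpos' : 0 < ∑ i, (n i + 1) / 2 := by
    have h1 : n j ≤ ∑ i, n i := single_le_sum (fun i _ => Nat.zero_le (n i)) (mem_univ j)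
    have h2 := hpos j
    omega
  have hnot : ¬ ProportionallyChoosable (K n) (∑ i, (n i + 1) / 2) := by
    rw [hs] at hj hodd
    exact notChoosable n heven j _ hsum hpos' hj.le hodd
  refine ⟨?_, hnot, chiPc_ne _ _ hpos' hnot⟩
  intro hH
  have := hH.2 j
  omega

/-- **Q1 is false.** The formula `χ_pc = ∑ ⌈n_i / 2⌉` fails for complete multipartite graphs which do
not satisfy (H): for `K_{2,6}`, for all `K_{2,4m+2}` with `m ≥ 1`, and whenever all parts are even,
one part has more than `s = ∑ n_i / 2` vertices and the quotient of its size by its greatest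
common divisor with `s` is odd. -/
theorem result :
    (¬ ∀ (t : ℕ) (n : Fin t → ℕ), 2 ≤ t → (∀ i, 0 < n i) → ¬ H n →
      chiPc (K n) = ∑ i, (n i + 1) / 2) ∧
    (∀ (t : ℕ) (n : Fin t → ℕ), (∀ i, 0 < n i) → (∀ i, Even (n i)) →
      ∀ j, (∑ i, n i) / 2 < n j → Odd (n j / Nat.gcd (n j) ((∑ i, n i) / 2)) →
        ¬ H n ∧ ¬ ProportionallyChoosable (K n) (∑ i, (n i + 1) / 2) ∧
          chiPc (K n) ≠ ∑ i, (n i + 1) / 2) ∧
    (∀ m : ℕ, 1 ≤ m → ¬ H ![2, 4 * m + 2] ∧ chiPc (K ![2, 4 * m + 2]) ≠ 2 * m + 2) := by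
  have fam : ∀ m : ℕ, 1 ≤ m → ¬ H ![2, 4 * m + 2] ∧
      ¬ ProportionallyChoosable (K ![2, 4 * m + 2]) (∑ i, (![2, 4 * m + 2] i + 1) / 2) ∧
        chiPc (K ![2, 4 * m + 2]) ≠ ∑ i, (![2, 4 * m + 2] i + 1) / 2 := by
    intro m hm
    have v0 : (![2, 4 * m + 2] : Fin 2 → ℕ) 0 = 2 := rfl
    have v1 : (![2, 4 * m + 2] : Fin 2 → ℕ) 1 = 4 * m + 2 := rfl
    have hsum : (∑ i, ![2, 4 * m + 2] i) / 2 = 2 * m + 2 := by
      rw [Fin.sum_univ_two, v0, v1]
      omega
    apply general ![2, 4 * m + 2] (j := 1)
    · intro i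
      fin_cases i
      · simp
      · exact ⟨2 * m + 1, by simp; ring⟩
    · rw [hsum, v1]
      omega
    · intro i
      fin_cases i <;> simp
    · rw [hsum, v1]
      have hg : Nat.gcd (4 * m + 2) (2 * m + 2) = 2 := by
        have e1 : 4 * m + 2 = 2 * (2 * m + 1) := by ring
        have e2 : 2 * m + 2 = 2 * (m + 1) := by ring
        rw [e1, e2, Nat.gcd_mul_left]
        have e3 : Nat.gcd (2 * m + 1) (m + 1) = 1 := by
          have e4 : 2 * m + 1 = m + 1 * (m + 1) := by ring
          rw [e4, Nat.gcd_add_mul_right_left]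
          simp
        rw [e3]
      rw [hg]
      exact ⟨m, by omega⟩
  refine ⟨?_, fun t n h1 h2 j h3 h4 => general n h2 j h3 h1 h4, ?_⟩
  · intro hall
    obtain ⟨h1, -, h2⟩ := fam 1 le_rfl
    apply h2
    apply hall 2 ![2, 4 * 1 + 2] le_rfl _ h1
    intro i
    fin_cases i <;> simp
  · intro m hm
    obtain ⟨h1, -, h2⟩ := fam m hm
    refine ⟨h1, ?_⟩
    intro h
    apply h2
    have v0 : (![2, 4 * m + 2] : Fin 2 → ℕ) 0 = 2 := rfl
    have v1 : (![2, 4 * m + 2] : Fin 2 → ℕ) 1 = 4 * m + 2 := rfl
    rw [h, Fin.sum_univ_two, v0, v1]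
    omega

end Pool.Agent.Results.MP_f0eba7_co.BigEvenPart
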